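import Mathlib

set_option autoImplicit false

namespace Pool.Agent.Results.MP_ca9574_an.NaturalBoundary

open Metric Set

/-- `ℂ^n` with its Euclidean norm. -/
abbrev E (n : ℕ) : Type := EuclideanSpace ℂ (Fin n)

/-- The complex derivative `∂f/∂z_i`. -/
noncomputable def dz {n : ℕ} (i : Fin n) (f : E n → ℂ) : E n → ℂ :=
  fun z => fderiv ℂ f z (EuclideanSpace.single i 1)

/-- Derivatives of higher order: `dzList [i₁, ..., i_k] f` is `∂^k f / ∂z_{i₁} ... ∂z_{i_k}`. -/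
noncomputable def dzList {n : ℕ} : List (Fin n) → (E n → ℂ) → (E n → ℂ)
  | [], f => f
  | i :: l, f => dz i (dzList l f)

/-- The ball algebra `A(B)`: continuous on the closed unit ball and holomorphic in the open unit
ball `B` of `ℂ^n`. -/
def ballAlgebra (n : ℕ) : Set (E n → ℂ) :=
  {f | ContinuousOn f (closedBall 0 1) ∧ DifferentiableOn ℂ f (ball 0 1)}

/-- The class `A^∞(B)`: holomorphic in the open unit ball `B`, and every derivative of every order
extends continuously to the closed unit ball. -/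
def AInfty (n : ℕ) : Set (E n → ℂ) :=
  {f | DifferentiableOn ℂ f (ball 0 1) ∧
    ∀ l : List (Fin n), ∃ g : E n → ℂ, ContinuousOn g (closedBall 0 1) ∧
      ∀ z ∈ ball (0 : E n) 1, g z = dzList l f z}

/-- The unit circle is the natural boundary of `g`: there are no `τ` on the unit circle, open
disc `D` containing `τ` and holomorphic `h` on `D` with `h = g` on `D ∩ U`. -/
def CircleIsNaturalBoundary (g : ℂ → ℂ) : Prop :=
  ¬ ∃ (τ c : ℂ) (r : ℝ) (h : ℂ → ℂ), ‖τ‖ = 1 ∧ τ ∈ ball c r ∧ DifferentiableOn ℂ h (ball c r) ∧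
    ∀ z ∈ ball c r ∩ ball 0 1, h z = g z

/-- Property (NB): `f ∘ Φ` has the unit circle as its natural boundary, for every nonconstant
affine `Φ(z) = a + z b` which maps the unit circle into the unit sphere. -/
def NB {n : ℕ} (f : E n → ℂ) : Prop :=
  ∀ a b : E n, b ≠ 0 → (∀ z : ℂ, ‖z‖ = 1 → ‖a + z • b‖ = 1) →
    CircleIsNaturalBoundary (fun z => f (a + z • b))

/-! ### A two constants estimate -/

theorem two_const (g : ℂ → ℂ) (c : ℂ) (s A η : ℝ) (hs : 0 < s)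
    (hg : DifferentiableOn ℂ g (ball c (7 * s)))
    (hA : ∀ z ∈ ball c (7 * s), ‖g z‖ ≤ A) (hη : ∀ z ∈ closedBall c (s / 2), ‖g z‖ ≤ η)
    (I : ℕ) (z : ℂ) (hz : ‖z - c‖ = 2 * s) :
    ‖g z‖ ≤ η * 4 ^ I + 2 * A * (1 / 3) ^ I := by
  have hA0 : 0 ≤ A := (norm_nonneg _).trans (hA c (by simp; positivity))
  have hη0 : 0 ≤ η := (norm_nonneg _).trans (hη c (by simp; positivity))
  have hzb : z ∈ ball c (7 * s) := by rw [mem_ball_iff_norm, hz]; linarith
  have hsum := Complex.hasSum_taylorSeries_on_ball hg hzb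
  set a : ℕ → ℂ := fun n : ℕ ↦ (n.factorial : ℂ)⁻¹ • (z - c) ^ n • iteratedDeriv n g c with ha
  have hna : ∀ n, ‖a n‖ = (n.factorial : ℝ)⁻¹ * ((2 * s) ^ n * ‖iteratedDeriv n g c‖) := by
    intro n
    simp only [ha, norm_smul, norm_inv, norm_pow, hz, Complex.norm_natCast]
  have hfac : ∀ n : ℕ, (0 : ℝ) < n.factorial := fun n => by exact_mod_cast n.factorial_pos
  have h1 : ∀ n, ‖a n‖ ≤ η * 4 ^ n := by
    intro n
    have h := Complex.norm_iteratedDeriv_le_of_forall_mem_sphere_norm_le (f := g) (c := c)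
      (R := s / 2) (C := η) n (by positivity)
      (hg.diffContOnCl_ball (closedBall_subset_ball (by linarith)))
      (fun w hw => hη w (sphere_subset_closedBall hw))
    rw [hna]
    calc (n.factorial : ℝ)⁻¹ * ((2 * s) ^ n * ‖iteratedDeriv n g c‖)
        ≤ (n.factorial : ℝ)⁻¹ * ((2 * s) ^ n * (n.factorial * η / (s / 2) ^ n)) := by
          gcongr
      _ = η * 4 ^ n := by
          have h4 : (4 : ℝ) ^ n = (2 * s) ^ n / (s / 2) ^ n := by
            rw [← div_pow]; congr 1; field_simp; norm_num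
          rw [h4]
          have := (hfac n).ne'
          field_simp
  have h2 : ∀ n, ‖a n‖ ≤ A * (1 / 3) ^ n := by
    intro n
    have h := Complex.norm_iteratedDeriv_le_of_forall_mem_sphere_norm_le (f := g) (c := c)
      (R := 6 * s) (C := A) n (by positivity)
      (hg.diffContOnCl_ball (closedBall_subset_ball (by linarith)))
      (fun w hw => hA w (closedBall_subset_ball (by linarith) (sphere_subset_closedBall hw)))
    rw [hna]
    calc (n.factorial : ℝ)⁻¹ * ((2 * s) ^ n * ‖iteratedDeriv n g c‖)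
        ≤ (n.factorial : ℝ)⁻¹ * ((2 * s) ^ n * (n.factorial * A / (6 * s) ^ n)) := by
          gcongr
      _ = A * (1 / 3) ^ n := by
          have h4 : (1 / 3 : ℝ) ^ n = (2 * s) ^ n / (6 * s) ^ n := by
            rw [← div_pow]; congr 1; field_simp; norm_num
          rw [h4]
          have := (hfac n).ne'
          field_simp
  have hgeo : Summable (fun n : ℕ => A * (1 / 3 : ℝ) ^ n) :=
    (summable_geometric_of_lt_one (by norm_num) (by norm_num)).mul_left A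
  have hasum : Summable (fun n => ‖a n‖) := Summable.of_nonneg_of_le (fun _ => norm_nonneg _) h2 hgeo
  have h3 : ‖g z‖ ≤ ∑' n, ‖a n‖ := by
    rw [← hsum.tsum_eq]
    exact norm_tsum_le_tsum_norm hasum
  rw [← hasum.sum_add_tsum_nat_add I] at h3
  have h4 : ∑ n ∈ Finset.range I, ‖a n‖ ≤ η * 4 ^ I := by
    calc ∑ n ∈ Finset.range I, ‖a n‖ ≤ ∑ n ∈ Finset.range I, η * 4 ^ n :=
          Finset.sum_le_sum (fun n _ => h1 n)
      _ = η * ∑ n ∈ Finset.range I, 4 ^ n := by rw [Finset.mul_sum]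
      _ ≤ η * 4 ^ I := by
          gcongr
          rw [geom_sum_eq (by norm_num)]
          have : (0 : ℝ) < 4 ^ I := by positivity
          rw [div_le_iff₀ (by norm_num)]
          linarith
  have h5 : ∑' n, ‖a (n + I)‖ ≤ 2 * A * (1 / 3) ^ I := by
    have hs1 : Summable (fun n : ℕ => A * (1 / 3) ^ I * (1 / 3 : ℝ) ^ n) :=
      (summable_geometric_of_lt_one (by norm_num) (by norm_num)).mul_left _
    calc ∑' n, ‖a (n + I)‖ ≤ ∑' n : ℕ, A * (1 / 3) ^ I * (1 / 3 : ℝ) ^ n := by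
          refine Summable.tsum_le_tsum (fun n => ?_) ?_ hs1
          · refine (h2 (n + I)).trans (le_of_eq ?_)
            rw [pow_add]; ring
          · exact (summable_nat_add_iff I).2 hasum
      _ = A * (1 / 3) ^ I * (3 / 2) := by
          rw [tsum_mul_left, tsum_geometric_of_lt_one (by norm_num) (by norm_num)]
          norm_num
      _ ≤ 2 * A * (1 / 3) ^ I := by
          have : 0 ≤ A * (1 / 3 : ℝ) ^ I := by positivity
          linarith
  linarith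

/-! ### The exponents and coefficients -/

/-- The rapidly growing sequence `M_0 = 1`, `M_{k+1} = 2 M_k^2 + 2 (k+1)`. -/
def M : ℕ → ℕ
  | 0 => 1
  | k + 1 => 2 * M k ^ 2 + 2 * (k + 1)

theorem M_pos (k : ℕ) : 1 ≤ M k := by
  cases k with
  | zero => simp [M]
  | succ k => simp only [M]; omega

theorem M_succ_gt (k : ℕ) : M k + 1 ≤ M (k + 1) := by
  have h := M_pos k
  have h2 : M k ≤ M k ^ 2 := by nlinarith
  simp only [M]
  omega

theorem M_strictMono : StrictMono M := strictMono_nat_of_lt_succ (fun k => M_succ_gt k)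

theorem M_ge (k : ℕ) : k ≤ M k := M_strictMono.id_le k

theorem summable_M (m : ℕ) : Summable (fun k => Real.exp (-(M k : ℝ)) * ((M k ^ 2 : ℕ) : ℝ) ^ m) := by
  have h := (Real.summable_pow_mul_exp_neg_nat_mul (2 * m) (r := 1) one_pos).comp_injective
    M_strictMono.injective
  refine h.congr (fun k => ?_)
  simp only [Function.comp]
  push_cast
  rw [← pow_mul]
  ring_nf

theorem summable_exp_M : Summable (fun k => Real.exp (-(M k : ℝ))) := by
  simpa using summable_M 0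

theorem tail_M (J : ℕ) : ∑' k, Real.exp (-(M (k + J) : ℝ)) ≤ 2 * Real.exp (-(M J : ℝ)) := by
  have hM : ∀ k, (M J : ℝ) + k ≤ M (k + J) := by
    intro k
    induction k with
    | zero => simp
    | succ k ih =>
      have h := M_succ_gt (k + J)
      have h' : ((M (k + J) + 1 : ℕ) : ℝ) ≤ M (k + J + 1) := by exact_mod_cast h
      push_cast at h' ⊢
      rw [show k + 1 + J = k + J + 1 by ring]
      linarith
  have he : Real.exp (-1) ≤ 1 / 2 := by
    rw [Real.exp_neg, inv_le_comm₀ (Real.exp_pos _) (by norm_num)]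
    have := Real.add_one_le_exp (1 : ℝ)
    norm_num at this ⊢
    linarith
  have hs1 : Summable (fun n : ℕ => Real.exp (-(M J : ℝ)) * (1 / 2 : ℝ) ^ n) :=
      (summable_geometric_of_lt_one (by norm_num) (by norm_num)).mul_left _
  calc ∑' k, Real.exp (-(M (k + J) : ℝ)) ≤ ∑' n : ℕ, Real.exp (-(M J : ℝ)) * (1 / 2 : ℝ) ^ n := by
        refine Summable.tsum_le_tsum (fun n => ?_) ?_ hs1
        · calc Real.exp (-(M (n + J) : ℝ)) ≤ Real.exp (-(M J : ℝ) + n * (-1)) := by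
                apply Real.exp_le_exp.2
                have := hM n
                linarith
            _ = Real.exp (-(M J : ℝ)) * Real.exp (-1) ^ n := by
                rw [Real.exp_add, Real.exp_nat_mul]
            _ ≤ Real.exp (-(M J : ℝ)) * (1 / 2 : ℝ) ^ n := by gcongr
        · exact (summable_nat_add_iff (f := fun k => Real.exp (-(M k : ℝ))) J).2 summable_exp_M
    _ = 2 * Real.exp (-(M J : ℝ)) := by
        rw [tsum_mul_left, tsum_geometric_of_lt_one (by norm_num) (by norm_num)]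
        norm_num
        ring

/-! ### The function and its derivatives -/

variable {n : ℕ}

/-- The `k`-th coefficient of the derivative indexed by `l`. -/
noncomputable def coef (ζ : ℕ → E n) (l : List (Fin n)) (k : ℕ) : ℂ :=
  (Real.exp (-(M k : ℝ)) : ℂ) * ((M k ^ 2).descFactorial l.length : ℂ) *
    (l.map (fun i => innerSL ℂ (ζ k) (EuclideanSpace.single i 1))).prod

/-- The `k`-th term of the derivative indexed by `l`. -/
noncomputable def term (ζ : ℕ → E n) (l : List (Fin n)) (k : ℕ) (z : E n) : ℂ :=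
  coef ζ l k * (innerSL ℂ (ζ k) z) ^ (M k ^ 2 - l.length)

/-- The derivative indexed by `l`, as a series. -/
noncomputable def F (ζ : ℕ → E n) (l : List (Fin n)) (z : E n) : ℂ := ∑' k, term ζ l k z

theorem norm_inner_le (ζ : ℕ → E n) (hζ : ∀ k, ‖ζ k‖ = 1) (k : ℕ) (z : E n) :
    ‖innerSL ℂ (ζ k) z‖ ≤ ‖z‖ := by
  rw [innerSL_apply_apply]
  have := norm_inner_le_norm (𝕜 := ℂ) (ζ k) z
  rwa [hζ k, one_mul] at this

theorem norm_list_prod_le (ζ : ℕ → E n) (hζ : ∀ k, ‖ζ k‖ = 1) (k : ℕ) (l : List (Fin n)) :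
    ‖(l.map (fun i => innerSL ℂ (ζ k) (EuclideanSpace.single i 1))).prod‖ ≤ 1 := by
  induction l with
  | nil => simp
  | cons i l ih =>
    rw [List.map_cons, List.prod_cons, norm_mul]
    have h := norm_inner_le ζ hζ k (EuclideanSpace.single i 1)
    rw [PiLp.norm_single, norm_one] at h
    exact mul_le_one₀ h (norm_nonneg _) ih

theorem norm_coef_le (ζ : ℕ → E n) (hζ : ∀ k, ‖ζ k‖ = 1) (l : List (Fin n)) (k : ℕ) :
    ‖coef ζ l k‖ ≤ Real.exp (-(M k : ℝ)) * ((M k ^ 2 : ℕ) : ℝ) ^ l.length := by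
  unfold coef
  rw [norm_mul, norm_mul]
  have h1 := norm_list_prod_le ζ hζ k l
  have h2 : ‖((Real.exp (-(M k : ℝ)) : ℝ) : ℂ)‖ = Real.exp (-(M k : ℝ)) := by
    rw [Complex.norm_real, Real.norm_of_nonneg (Real.exp_pos _).le]
  have h3 : ‖((M k ^ 2).descFactorial l.length : ℂ)‖ ≤ ((M k ^ 2 : ℕ) : ℝ) ^ l.length := by
    rw [Complex.norm_natCast]
    exact_mod_cast Nat.descFactorial_le_pow _ _
  rw [h2]
  calc _ ≤ Real.exp (-(M k : ℝ)) * ((M k ^ 2 : ℕ) : ℝ) ^ l.length * 1 := by gcongr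
    _ = _ := mul_one _

theorem norm_term_le (ζ : ℕ → E n) (hζ : ∀ k, ‖ζ k‖ = 1) (l : List (Fin n)) (k : ℕ)
    (z : E n) (hz : z ∈ closedBall (0 : E n) 1) :
    ‖term ζ l k z‖ ≤ Real.exp (-(M k : ℝ)) * ((M k ^ 2 : ℕ) : ℝ) ^ l.length := by
  unfold term
  rw [norm_mul, norm_pow]
  have h1 : ‖innerSL ℂ (ζ k) z‖ ≤ 1 := (norm_inner_le ζ hζ k z).trans (by simpa using hz)
  calc _ ≤ Real.exp (-(M k : ℝ)) * ((M k ^ 2 : ℕ) : ℝ) ^ l.length * 1 := by
        gcongr
        · exact norm_coef_le ζ hζ l k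
        · exact pow_le_one₀ (norm_nonneg _) h1
    _ = _ := mul_one _

theorem continuousOn_F (ζ : ℕ → E n) (hζ : ∀ k, ‖ζ k‖ = 1) (l : List (Fin n)) :
    ContinuousOn (F ζ l) (closedBall 0 1) := by
  refine continuousOn_tsum (fun k => ?_) (summable_M l.length)
    (fun k z hz => norm_term_le ζ hζ l k z hz)
  unfold term
  fun_prop

theorem hasFDerivAt_term (ζ : ℕ → E n) (l : List (Fin n)) (k : ℕ) (z : E n) :
    HasFDerivAt (term ζ l k)
      ((coef ζ l k * (((M k ^ 2 - l.length : ℕ) : ℂ) *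
        (innerSL ℂ (ζ k) z) ^ (M k ^ 2 - l.length - 1))) • innerSL ℂ (ζ k)) z := by
  unfold term
  have h := ((innerSL ℂ (ζ k)).hasFDerivAt (x := z)).pow (M k ^ 2 - l.length)
  have h2 := h.const_mul (coef ζ l k)
  refine h2.congr_fderiv ?_
  ext w
  simp
  ring

theorem norm_deriv_term_le (ζ : ℕ → E n) (hζ : ∀ k, ‖ζ k‖ = 1) (l : List (Fin n)) (k : ℕ)
    (z : E n) (hz : z ∈ ball (0 : E n) 1) :
    ‖(coef ζ l k * (((M k ^ 2 - l.length : ℕ) : ℂ) *
        (innerSL ℂ (ζ k) z) ^ (M k ^ 2 - l.length - 1))) • innerSL ℂ (ζ k)‖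
      ≤ Real.exp (-(M k : ℝ)) * ((M k ^ 2 : ℕ) : ℝ) ^ (l.length + 1) := by
  rw [norm_smul, norm_mul, norm_mul, norm_pow, innerSL_apply_norm, hζ k, Complex.norm_natCast]
  have h1 : ‖innerSL ℂ (ζ k) z‖ ≤ 1 :=
    (norm_inner_le ζ hζ k z).trans (by simpa using (ball_subset_closedBall hz))
  have h2 : ((M k ^ 2 - l.length : ℕ) : ℝ) ≤ ((M k ^ 2 : ℕ) : ℝ) := by
    exact_mod_cast Nat.sub_le _ _
  calc _ ≤ Real.exp (-(M k : ℝ)) * ((M k ^ 2 : ℕ) : ℝ) ^ l.length *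
        (((M k ^ 2 : ℕ) : ℝ) * 1) * 1 := by
        gcongr
        · exact norm_coef_le ζ hζ l k
        · exact pow_le_one₀ (norm_nonneg _) h1
    _ = _ := by rw [pow_succ]; ring

theorem hasFDerivAt_F (ζ : ℕ → E n) (hζ : ∀ k, ‖ζ k‖ = 1) (l : List (Fin n)) (z : E n)
    (hz : z ∈ ball (0 : E n) 1) :
    HasFDerivAt (F ζ l) (∑' k, (coef ζ l k * (((M k ^ 2 - l.length : ℕ) : ℂ) *
        (innerSL ℂ (ζ k) z) ^ (M k ^ 2 - l.length - 1))) • innerSL ℂ (ζ k)) z := by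
  refine hasFDerivAt_tsum_of_isPreconnected (summable_M (l.length + 1)) isOpen_ball
    (convex_ball _ _).isPreconnected (fun k x _ => hasFDerivAt_term ζ l k x)
    (fun k x hx => norm_deriv_term_le ζ hζ l k x hx) hz ?_ hz
  exact Summable.of_norm_bounded (summable_M l.length)
    (fun k => norm_term_le ζ hζ l k z (ball_subset_closedBall hz))

theorem dz_F (ζ : ℕ → E n) (hζ : ∀ k, ‖ζ k‖ = 1) (i : Fin n) (l : List (Fin n)) (z : E n)
    (hz : z ∈ ball (0 : E n) 1) : dz i (F ζ l) z = F ζ (i :: l) z := by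
  unfold dz
  rw [(hasFDerivAt_F ζ hζ l z hz).fderiv]
  have hs : Summable (fun k => (coef ζ l k * (((M k ^ 2 - l.length : ℕ) : ℂ) *
        (innerSL ℂ (ζ k) z) ^ (M k ^ 2 - l.length - 1))) • innerSL ℂ (ζ k)) :=
    Summable.of_norm_bounded (summable_M (l.length + 1))
      (fun k => norm_deriv_term_le ζ hζ l k z hz)
  have he := (ContinuousLinearMap.apply ℂ ℂ (EuclideanSpace.single i (1 : ℂ) : E n)).map_tsum hs
  rw [ContinuousLinearMap.apply_apply] at he
  rw [he]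
  unfold F
  refine tsum_congr (fun k => ?_)
  rw [ContinuousLinearMap.apply_apply]
  unfold term coef
  rw [List.length_cons, Nat.descFactorial_succ, List.map_cons, List.prod_cons, ← Nat.sub_sub]
  simp only [smul_apply, smul_eq_mul]
  push_cast
  ring

theorem dzList_F (ζ : ℕ → E n) (hζ : ∀ k, ‖ζ k‖ = 1) (l : List (Fin n)) :
    ∀ z ∈ ball (0 : E n) 1, dzList l (F ζ []) z = F ζ l z := by
  induction l with
  | nil => intro z _; rfl
  | cons i l ih =>
    intro z hz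
    rw [← dz_F ζ hζ i l z hz]
    change fderiv ℂ (dzList l (F ζ [])) z _ = fderiv ℂ (F ζ l) z _
    have h : dzList l (F ζ []) =ᶠ[nhds z] F ζ l :=
      Filter.eventuallyEq_of_mem (isOpen_ball.mem_nhds hz) ih
    rw [h.fderiv_eq]

theorem F_mem (ζ : ℕ → E n) (hζ : ∀ k, ‖ζ k‖ = 1) : F ζ [] ∈ AInfty n := by
  refine ⟨fun z hz => (hasFDerivAt_F ζ hζ [] z hz).differentiableAt.differentiableWithinAt, ?_⟩
  intro l
  exact ⟨F ζ l, continuousOn_F ζ hζ l, fun z hz => (dzList_F ζ hζ l z hz).symm⟩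

theorem F_mem' (ζ : ℕ → E n) (hζ : ∀ k, ‖ζ k‖ = 1) : F ζ [] ∈ ballAlgebra n :=
  ⟨continuousOn_F ζ hζ [], (F_mem ζ hζ).1⟩

/-! ### Natural boundary -/

theorem inner_facts (a b : E n) (hab : ∀ z : ℂ, ‖z‖ = 1 → ‖a + z • b‖ = 1) :
    inner ℂ a b = 0 ∧ ‖a‖ ^ 2 + ‖b‖ ^ 2 = 1 := by
  have key : ∀ z : ℂ, ‖z‖ = 1 → ‖a‖ ^ 2 + 2 * (z * inner ℂ a b).re + ‖b‖ ^ 2 = 1 := by
    intro z hz
    have h := norm_add_sq (𝕜 := ℂ) a (z • b)
    rw [hab z hz, norm_smul, hz, inner_smul_right] at h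
    simpa using h.symm
  have h1 := key 1 (by simp)
  have h2 := key (-1) (by simp)
  have h3 := key Complex.I (by simp)
  have h4 := key (-Complex.I) (by simp)
  simp only [one_mul, neg_mul, Complex.neg_re, Complex.mul_re, Complex.I_re, Complex.I_im,
    zero_mul, zero_sub, neg_neg] at h1 h2 h3 h4
  have h5 : (inner ℂ a b).re = 0 := by linarith
  have h6 : (inner ℂ a b).im = 0 := by linarith
  refine ⟨Complex.ext h5 h6, by linarith⟩

theorem norm_line_le (a b : E n) (hab : ∀ z : ℂ, ‖z‖ = 1 → ‖a + z • b‖ = 1) (z : ℂ) (R : ℝ)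
    (hR : 1 ≤ R) (hz : ‖z‖ ≤ R) : ‖a + z • b‖ ≤ R := by
  obtain ⟨h1, h2⟩ := inner_facts a b hab
  have h := norm_add_sq (𝕜 := ℂ) a (z • b)
  rw [norm_smul, inner_smul_right, h1] at h
  simp only [mul_zero, map_zero, add_zero] at h
  have h3 : ‖z‖ ^ 2 ≤ R ^ 2 := by
    have := norm_nonneg z
    nlinarith
  have h4 : ‖a + z • b‖ ^ 2 ≤ R ^ 2 := by
    rw [h, mul_pow]
    have h5 : 1 ≤ R ^ 2 := by nlinarith
    have h6 : R ^ 2 * (‖a‖ ^ 2 + ‖b‖ ^ 2) = R ^ 2 := by rw [h2, mul_one]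
    nlinarith [mul_le_mul_of_nonneg_right h5 (sq_nonneg ‖a‖),
      mul_le_mul_of_nonneg_right h3 (sq_nonneg ‖b‖)]
  exact abs_le_of_sq_le_sq' h4 (by linarith) |>.2

/-- Partial sums of the series along the line. -/
noncomputable def P (ζ : ℕ → E n) (a b : E n) (J : ℕ) (z : ℂ) : ℂ :=
  ∑ k ∈ Finset.range J, term ζ [] k (a + z • b)

theorem term_nil (ζ : ℕ → E n) (k : ℕ) (w : E n) :
    term ζ [] k w = (Real.exp (-(M k : ℝ)) : ℂ) * (innerSL ℂ (ζ k) w) ^ (M k ^ 2) := by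
  simp [term, coef]

theorem norm_P_le (ζ : ℕ → E n) (hζ : ∀ k, ‖ζ k‖ = 1) (a b : E n)
    (hab : ∀ z : ℂ, ‖z‖ = 1 → ‖a + z • b‖ = 1) (J : ℕ) (z : ℂ) (hz : ‖z‖ ≤ 2) :
    ‖P ζ a b (J + 1) z‖ ≤ (J + 1) * 2 ^ (M J ^ 2) := by
  unfold P
  refine (norm_sum_le _ _).trans ?_
  calc ∑ k ∈ Finset.range (J + 1), ‖term ζ [] k (a + z • b)‖
      ≤ ∑ k ∈ Finset.range (J + 1), (2 : ℝ) ^ (M J ^ 2) := by
        refine Finset.sum_le_sum (fun k hk => ?_)
        have hkJ : k ≤ J := by simpa [Nat.lt_succ_iff] using hk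
        rw [term_nil, norm_mul, norm_pow, Complex.norm_real,
          Real.norm_of_nonneg (Real.exp_pos _).le]
        have h1 : Real.exp (-(M k : ℝ)) ≤ 1 := by
          rw [Real.exp_le_one_iff]
          simp
        have h2 : ‖innerSL ℂ (ζ k) (a + z • b)‖ ≤ 2 :=
          (norm_inner_le ζ hζ k _).trans (norm_line_le a b hab z 2 (by norm_num) hz)
        calc Real.exp (-(M k : ℝ)) * ‖innerSL ℂ (ζ k) (a + z • b)‖ ^ (M k ^ 2)
            ≤ 1 * 2 ^ (M k ^ 2) := by gcongr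
          _ ≤ 2 ^ (M J ^ 2) := by
            rw [one_mul]
            apply pow_le_pow_right₀ (by norm_num)
            exact Nat.pow_le_pow_left (M_strictMono.monotone hkJ) 2
    _ = (J + 1) * 2 ^ (M J ^ 2) := by simp

theorem tail_F (ζ : ℕ → E n) (hζ : ∀ k, ‖ζ k‖ = 1) (a b : E n)
    (hab : ∀ z : ℂ, ‖z‖ = 1 → ‖a + z • b‖ = 1) (J : ℕ) (z : ℂ) (hz : ‖z‖ ≤ 1) :
    ‖F ζ [] (a + z • b) - P ζ a b J z‖ ≤ 2 * Real.exp (-(M J : ℝ)) := by
  have hmem : a + z • b ∈ closedBall (0 : E n) 1 := by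
    simpa using norm_line_le a b hab z 1 le_rfl hz
  have hb : ∀ k, ‖term ζ [] k (a + z • b)‖ ≤ Real.exp (-(M k : ℝ)) := by
    intro k
    simpa using norm_term_le ζ hζ [] k _ hmem
  have hs : Summable (fun k => term ζ [] k (a + z • b)) :=
    Summable.of_norm_bounded summable_exp_M hb
  unfold F P
  rw [← hs.sum_add_tsum_nat_add J, add_sub_cancel_left]
  refine (norm_tsum_le_tsum_norm ?_).trans ?_
  · exact (summable_nat_add_iff (f := fun k => ‖term ζ [] k (a + z • b)‖) J).2 hs.norm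
  · refine le_trans ?_ (tail_M J)
    refine Summable.tsum_le_tsum (fun k => hb (k + J)) ?_ ?_
    · exact (summable_nat_add_iff (f := fun k => ‖term ζ [] k (a + z • b)‖) J).2 hs.norm
    · exact (summable_nat_add_iff (f := fun k => Real.exp (-(M k : ℝ))) J).2 summable_exp_M

theorem differentiable_P (ζ : ℕ → E n) (a b : E n) (J : ℕ) : Differentiable ℂ (P ζ a b J) := by
  unfold P term
  fun_prop

theorem growth (σ B : ℝ) (hσ : 0 < σ) :
    ∃ K : ℕ, ∀ m : ℕ, K ≤ m → B < Real.exp (-(m : ℝ)) * (1 + σ) ^ (m ^ 2) := by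
  have h := tendsto_pow_atTop_atTop_of_one_lt (show (1 : ℝ) < 1 + σ by linarith)
  obtain ⟨K1, hK1⟩ := (Filter.tendsto_atTop_atTop.1 h) (Real.exp 2)
  obtain ⟨K2, hK2⟩ := exists_nat_ge B
  refine ⟨max K1 K2, fun m hm => ?_⟩
  have h1 : Real.exp 2 ≤ (1 + σ) ^ m := hK1 m ((le_max_left _ _).trans hm)
  have h2 : B ≤ m := hK2.trans (by exact_mod_cast (le_max_right _ _).trans hm)
  have h3 : Real.exp (2 * m) ≤ (1 + σ) ^ (m ^ 2) := by
    calc Real.exp (2 * m) = (Real.exp 2) ^ m := by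
          rw [mul_comm, Real.exp_nat_mul]
      _ ≤ ((1 + σ) ^ m) ^ m := by
          gcongr
      _ = (1 + σ) ^ (m ^ 2) := by rw [← pow_mul, sq]
  calc B ≤ m := h2
    _ < m + 1 := by linarith
    _ ≤ Real.exp m := Real.add_one_le_exp _
    _ = Real.exp (-(m : ℝ)) * Real.exp (2 * m) := by rw [← Real.exp_add]; congr 1; ring
    _ ≤ _ := by gcongr

theorem bound_const (J : ℕ) (Mh : ℝ) (hMh : 0 ≤ Mh) :
    2 * Real.exp (-(M (J + 1) : ℝ)) * 4 ^ (M J ^ 2 + (J + 1)) +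
      2 * (Mh + (J + 1) * 2 ^ (M J ^ 2)) * (1 / 3) ^ (M J ^ 2 + (J + 1)) ≤ 4 + 2 * Mh := by
  have hM : M (J + 1) = 2 * (M J ^ 2 + (J + 1)) := by simp only [M]; ring
  rw [hM]
  generalize M J ^ 2 = N
  have h1 : Real.exp (-((2 * (N + (J + 1)) : ℕ) : ℝ)) * 4 ^ (N + (J + 1)) ≤ 1 := by
    have h2 : (4 : ℝ) ≤ Real.exp 2 := by
      have h3 := Real.add_one_le_exp (1 : ℝ)
      have h4 : Real.exp 2 = Real.exp 1 * Real.exp 1 := by rw [← Real.exp_add]; norm_num
      nlinarith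
    calc Real.exp (-((2 * (N + (J + 1)) : ℕ) : ℝ)) * 4 ^ (N + (J + 1))
        ≤ Real.exp (-((2 * (N + (J + 1)) : ℕ) : ℝ)) * (Real.exp 2) ^ (N + (J + 1)) := by
          gcongr
      _ = 1 := by
          rw [← Real.exp_nat_mul, ← Real.exp_add]
          push_cast
          rw [Real.exp_eq_one_iff]
          ring
  have h2 : (1 / 3 : ℝ) ^ (N + (J + 1)) ≤ 1 := pow_le_one₀ (by norm_num) (by norm_num)
  have h3 : ((J : ℝ) + 1) * 2 ^ N * (1 / 3) ^ (N + (J + 1)) ≤ 1 := by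
    have h4 : ((J : ℝ) + 1) * (1 / 3) ^ (J + 1) ≤ 1 := by
      have h5 : J + 1 < 3 ^ (J + 1) := Nat.lt_pow_self (by norm_num)
      have h6 : ((J : ℝ) + 1) ≤ 3 ^ (J + 1) := by exact_mod_cast h5.le
      rw [one_div, inv_pow]
      rw [← div_eq_mul_inv, div_le_one (by positivity)]
      exact h6
    have h5 : (2 / 3 : ℝ) ^ N ≤ 1 := pow_le_one₀ (by norm_num) (by norm_num)
    calc ((J : ℝ) + 1) * 2 ^ N * (1 / 3) ^ (N + (J + 1))
        = (((J : ℝ) + 1) * (1 / 3) ^ (J + 1)) * (2 / 3 : ℝ) ^ N := by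
          rw [pow_add, div_pow 2 3, div_pow 1 3]
          ring
      _ ≤ 1 * 1 := by gcongr
      _ = 1 := by norm_num
  nlinarith [mul_le_mul_of_nonneg_left h2 hMh]

theorem NB_F (ζ : ℕ → E n) (hζ : ∀ k, ‖ζ k‖ = 1)
    (hd : ∀ x : E n, ‖x‖ = 1 → ∀ ε > 0, ∀ K : ℕ, ∃ k ≥ K, ‖ζ k - x‖ < ε) : NB (F ζ []) := by
  intro a b hb hab
  rintro ⟨τ, c, r, h, hτ, hτc, hh, heq⟩
  obtain ⟨ε, hε, hεb⟩ := Metric.isOpen_iff.1 isOpen_ball τ hτc
  set s : ℝ := min (ε / 16) (1 / 8) with hs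
  have hs0 : 0 < s := by rw [hs]; positivity
  have hs1 : s ≤ ε / 16 := min_le_left _ _
  have hs2 : s ≤ 1 / 8 := min_le_right _ _
  have hsub : closedBall τ (8 * s) ⊆ ball c r := by
    refine (closedBall_subset_ball ?_).trans hεb
    linarith
  obtain ⟨Mh, hMh⟩ := (isCompact_closedBall τ (8 * s)).exists_bound_of_continuousOn
    (hh.continuousOn.mono hsub)
  have hMh0 : 0 ≤ Mh := (norm_nonneg _).trans (hMh τ (by simp; positivity))
  set l0 : ℂ := ((1 - s : ℝ) : ℂ) * τ with hl0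
  set l1 : ℂ := ((1 + s : ℝ) : ℂ) * τ with hl1
  have hn0 : ‖l0‖ = 1 - s := by
    rw [hl0, norm_mul, hτ, mul_one, Complex.norm_real, Real.norm_of_nonneg (by linarith)]
  have hn1 : ‖l1‖ = 1 + s := by
    rw [hl1, norm_mul, hτ, mul_one, Complex.norm_real, Real.norm_of_nonneg (by linarith)]
  have hd01 : ‖l1 - l0‖ = 2 * s := by
    rw [hl0, hl1, ← sub_mul, norm_mul, hτ, mul_one, ← Complex.ofReal_sub, Complex.norm_real,
      Real.norm_of_nonneg (by linarith)]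
    ring
  have hd0 : ‖l0 - τ‖ = s := by
    have : l0 - τ = ((-s : ℝ) : ℂ) * τ := by rw [hl0]; push_cast; ring
    rw [this, norm_mul, hτ, mul_one, Complex.norm_real, Real.norm_eq_abs, abs_neg,
      abs_of_pos hs0]
  have hd1 : ‖l1 - τ‖ = s := by
    have : l1 - τ = ((s : ℝ) : ℂ) * τ := by rw [hl1]; push_cast; ring
    rw [this, norm_mul, hτ, mul_one, Complex.norm_real, Real.norm_eq_abs, abs_of_pos hs0]
  have hB7 : ∀ z ∈ ball l0 (7 * s), z ∈ closedBall τ (8 * s) := by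
    intro z hz
    rw [mem_ball_iff_norm] at hz
    rw [mem_closedBall_iff_norm]
    calc ‖z - τ‖ = ‖(z - l0) + (l0 - τ)‖ := by ring_nf
      _ ≤ ‖z - l0‖ + ‖l0 - τ‖ := norm_add_le _ _
      _ ≤ 8 * s := by rw [hd0]; linarith
  have hBn : ∀ z, ∀ R, ‖z - l0‖ ≤ R → ‖z‖ ≤ 1 - s + R := by
    intro z R hz
    calc ‖z‖ = ‖(z - l0) + l0‖ := by ring_nf
      _ ≤ ‖z - l0‖ + ‖l0‖ := norm_add_le _ _
      _ ≤ _ := by rw [hn0]; linarith
  have hP : ∀ J, ‖P ζ a b (J + 1) l1‖ ≤ 3 * Mh + 4 := by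
    intro J
    have key := two_const (fun z => h z - P ζ a b (J + 1) z) l0 s
      (Mh + (J + 1) * 2 ^ (M J ^ 2)) (2 * Real.exp (-(M (J + 1) : ℝ))) hs0
      ((hh.mono (fun z hz => hsub (hB7 z hz))).sub (differentiable_P ζ a b (J + 1)).differentiableOn)
      ?_ ?_ (M J ^ 2 + (J + 1)) l1 hd01
    · have h1 := bound_const J Mh hMh0
      have h2 : ‖h l1‖ ≤ Mh := by
        apply hMh
        rw [mem_closedBall_iff_norm, hd1]
        linarith
      have h3 : ‖P ζ a b (J + 1) l1‖ ≤ ‖h l1‖ + ‖h l1 - P ζ a b (J + 1) l1‖ := by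
        calc ‖P ζ a b (J + 1) l1‖ = ‖h l1 - (h l1 - P ζ a b (J + 1) l1)‖ := by ring_nf
          _ ≤ _ := norm_sub_le _ _
      linarith
    · intro z hz
      have h1 : ‖z‖ ≤ 2 := by
        have := hBn z (7 * s) (by rw [mem_ball_iff_norm] at hz; exact hz.le)
        linarith
      calc ‖h z - P ζ a b (J + 1) z‖ ≤ ‖h z‖ + ‖P ζ a b (J + 1) z‖ := norm_sub_le _ _
        _ ≤ Mh + (J + 1) * 2 ^ (M J ^ 2) :=
          add_le_add (hMh z (hB7 z hz)) (norm_P_le ζ hζ a b hab J z h1)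
    · intro z hz
      rw [mem_closedBall_iff_norm] at hz
      have h1 : ‖z‖ < 1 := by
        have := hBn z (s / 2) hz
        linarith
      have h2 : z ∈ ball c r := hsub (hB7 z (by rw [mem_ball_iff_norm]; linarith))
      have h3 : h z = F ζ [] (a + z • b) := heq z ⟨h2, by simpa using h1⟩
      change ‖h z - P ζ a b (J + 1) z‖ ≤ _
      rw [h3]
      exact tail_F ζ hζ a b hab (J + 1) z h1.le
  have hP' : ∀ J, ‖P ζ a b J l1‖ ≤ 3 * Mh + 4 := by
    intro J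
    cases J with
    | zero => simp only [P, Finset.range_zero, Finset.sum_empty, norm_zero]; linarith
    | succ J => exact hP J
  have hT : ∀ k, ‖term ζ [] k (a + l1 • b)‖ ≤ 6 * Mh + 8 := by
    intro k
    have h1 : term ζ [] k (a + l1 • b) = P ζ a b (k + 1) l1 - P ζ a b k l1 := by
      unfold P
      rw [Finset.sum_range_succ]
      ring
    rw [h1]
    calc _ ≤ ‖P ζ a b (k + 1) l1‖ + ‖P ζ a b k l1‖ := norm_sub_le _ _
      _ ≤ _ := by linarith [hP' k, hP' (k + 1)]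
  obtain ⟨hab0, hab1⟩ := inner_facts a b hab
  have hbpos : 0 < ‖b‖ ^ 2 := by positivity
  set w : E n := a + l1 • b with hw
  set x : E n := a + τ • b with hx
  have hxw : inner ℂ x w = ((1 + s * ‖b‖ ^ 2 : ℝ) : ℂ) := by
    have hba0 : inner ℂ b a = 0 := by
      rw [← inner_conj_symm, hab0, map_zero]
    rw [hx, hw, inner_add_left, inner_add_right, inner_add_right, inner_smul_left,
      inner_smul_right, inner_smul_left, inner_smul_right, hab0, hba0, inner_self_eq_norm_sq_to_K,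
      inner_self_eq_norm_sq_to_K, hl1]
    have hττ : (starRingEnd ℂ) τ * τ = 1 := by
      rw [mul_comm, Complex.mul_conj, Complex.normSq_eq_norm_sq, hτ]
      norm_num
    have hab1' : ((‖a‖ : ℂ)) ^ 2 + ((‖b‖ : ℂ)) ^ 2 = 1 := by exact_mod_cast hab1
    push_cast
    simp only [mul_zero, add_zero, zero_add, Complex.coe_algebraMap]
    calc ((‖a‖ : ℂ)) ^ 2 + (starRingEnd ℂ) τ * ((1 + (s : ℂ)) * τ * ((‖b‖ : ℂ)) ^ 2)
        = ((‖a‖ : ℂ)) ^ 2 + ((starRingEnd ℂ) τ * τ) * ((1 + (s : ℂ)) * ((‖b‖ : ℂ)) ^ 2) := by ring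
      _ = (((‖a‖ : ℂ)) ^ 2 + ((‖b‖ : ℂ)) ^ 2) + s * ((‖b‖ : ℂ)) ^ 2 := by rw [hττ]; ring
      _ = 1 + (s : ℂ) * ((‖b‖ : ℂ)) ^ 2 := by rw [hab1']
  have hwn : ‖w‖ ≤ 2 := norm_line_le a b hab l1 2 (by norm_num) (by rw [hn1]; linarith)
  obtain ⟨K, hK⟩ := growth (s * ‖b‖ ^ 2 / 2) (6 * Mh + 8) (by positivity)
  obtain ⟨k, hkK, hk⟩ := hd x (hab τ hτ) (s * ‖b‖ ^ 2 / 4) (by positivity) K
  have hin : 1 + s * ‖b‖ ^ 2 / 2 ≤ ‖innerSL ℂ (ζ k) w‖ := by
    have h1 : ‖inner ℂ x w‖ = 1 + s * ‖b‖ ^ 2 := by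
      rw [hxw, Complex.norm_real, Real.norm_of_nonneg (by positivity)]
    have h2 : inner ℂ x w = inner ℂ (ζ k) w - inner ℂ (ζ k - x) w := by
      rw [inner_sub_left]; ring
    have h3 : ‖inner ℂ (ζ k - x) w‖ ≤ s * ‖b‖ ^ 2 / 4 * 2 := by
      refine (norm_inner_le_norm _ _).trans ?_
      gcongr
    have h4 : ‖inner ℂ x w‖ ≤ ‖inner ℂ (ζ k) w‖ + ‖inner ℂ (ζ k - x) w‖ := by
      rw [h2]
      exact norm_sub_le _ _
    rw [innerSL_apply_apply]
    linarith
  have h1 := hT k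
  rw [term_nil, norm_mul, norm_pow, Complex.norm_real, Real.norm_of_nonneg (Real.exp_pos _).le]
    at h1
  have h2 := hK (M k) (hkK.le.trans (M_ge k))
  have h3 : Real.exp (-(M k : ℝ)) * (1 + s * ‖b‖ ^ 2 / 2) ^ (M k ^ 2) ≤
      Real.exp (-(M k : ℝ)) * ‖innerSL ℂ (ζ k) w‖ ^ (M k ^ 2) := by
    gcongr
  linarith

/-- A sequence on the unit sphere which visits every open set infinitely often. -/
theorem exists_seq (n : ℕ) (hn : 0 < n) : ∃ ζ : ℕ → E n, (∀ k, ‖ζ k‖ = 1) ∧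
    ∀ x : E n, ‖x‖ = 1 → ∀ ε > 0, ∀ K : ℕ, ∃ k ≥ K, ‖ζ k - x‖ < ε := by
  have : Nonempty (Fin n) := ⟨⟨0, hn⟩⟩
  have : Nonempty (sphere (0 : E n) 1) :=
    ⟨⟨EuclideanSpace.single ⟨0, hn⟩ 1, by simp⟩⟩
  let d : ℕ → sphere (0 : E n) 1 := TopologicalSpace.denseSeq _
  refine ⟨fun k => (d (Nat.unpair k).1 : E n), fun k => by simpa using (d (Nat.unpair k).1).2, ?_⟩
  intro x hx ε hε K
  have hxs : x ∈ sphere (0 : E n) 1 := by simpa using hx
  obtain ⟨i, hi⟩ := (TopologicalSpace.denseRange_denseSeq (sphere (0 : E n) 1)).exists_dist_lt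
    ⟨x, hxs⟩ hε
  refine ⟨Nat.pair i K, Nat.right_le_pair i K, ?_⟩
  simp only [Nat.unpair_pair]
  rw [Subtype.dist_eq, dist_comm, dist_eq_norm] at hi
  exact hi

/-- For every `n > 1` there is a function of class `A^∞(B)` (and in the ball algebra) with
property (NB). -/
theorem result : ∀ n : ℕ, 1 < n → ∃ f : E n → ℂ, f ∈ AInfty n ∧ f ∈ ballAlgebra n ∧ NB f := by
  intro n hn
  obtain ⟨ζ, hζ, hd⟩ := exists_seq n (by omega)
  exact ⟨F ζ [], F_mem ζ hζ, F_mem' ζ hζ, NB_F ζ hζ hd⟩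

end Pool.Agent.Results.MP_ca9574_an.NaturalBoundary
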